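import Mathlib

open Set Filter Topology

namespace Pool.Agent.Results.MP_12cf7c_an.Counterexample

/-- `u` is a continuous function on `T¹ = ℝ/ℤ` (a `1`-periodic function on `ℝ`) that is a global
viscosity subsolution of `H(x,u') = c`. -/
def IsSub (H : ℝ → ℝ → ℝ) (c : ℝ) (u : ℝ → ℝ) : Prop :=
  Continuous u ∧ Function.Periodic u 1 ∧
    ∀ (φ : ℝ → ℝ) (x : ℝ), ContDiff ℝ 1 φ → IsLocalMax (u - φ) x → H x (deriv φ x) ≤ c

/-- `u` satisfies the viscosity supersolution test for `H(x,u') = c` at the point `x`. -/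
def IsSuperAt (H : ℝ → ℝ → ℝ) (c : ℝ) (u : ℝ → ℝ) (x : ℝ) : Prop :=
  ∀ φ : ℝ → ℝ, ContDiff ℝ 1 φ → IsLocalMin (u - φ) x → c ≤ H x (deriv φ x)

/-- The critical value `c₀`. -/
noncomputable def c0 (H : ℝ → ℝ → ℝ) : ℝ := sInf {c | ∃ u, IsSub H c u}

/-- `S_x(y) = sup {u(y) - u(x) : u subsolution at level c₀}`. -/
noncomputable def S (H : ℝ → ℝ → ℝ) (x y : ℝ) : ℝ :=
  sSup {r | ∃ u, IsSub H (c0 H) u ∧ r = u y - u x}

def H0 (_x p : ℝ) : ℝ := (p ^ 2 - 1) ^ 2

lemma exists_max (u : ℝ → ℝ) (hu : Continuous u) (hp : Function.Periodic u 1) (x C : ℝ)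
    (hC : 0 < C) : ∃ z, ∀ y, u y - C * |y - x| ≤ u z - C * |z - x| := by
  obtain ⟨M, hM⟩ : ∃ M, ∀ y, u y ≤ M := by
    obtain ⟨M, hM⟩ := (hp.isBounded_of_continuous one_ne_zero hu).bddAbove
    exact ⟨M, fun y => hM (mem_range_self y)⟩
  refine Continuous.exists_forall_ge (f := fun y => u y - C * |y - x|) (by fun_prop) ?_
  have h1 : Tendsto (fun y : ℝ => |y - x|) (cocompact ℝ) atTop := by
    simpa [Real.dist_eq] using tendsto_dist_right_cocompact_atTop x
  have h2 := tendsto_atBot_add_const_left _ M (tendsto_neg_atTop_atBot.comp (h1.const_mul_atTop hC))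
  refine tendsto_atBot_mono (fun y => ?_) h2
  simp only [Function.comp]; linarith [hM y]

lemma low {c : ℝ} {u : ℝ → ℝ} (h : IsSub H0 c u) : 1 ≤ c := by
  obtain ⟨z, -, hz⟩ := (isCompact_Icc (a := (0:ℝ)) (b := 1)).exists_isMaxOn
    ⟨0, by simp⟩ h.1.continuousOn
  have : ∀ y, u y ≤ u z := fun y => by
    obtain ⟨w, hw, e⟩ := h.2.1.exists_mem_Ico₀ one_pos y
    rw [e]; exact hz (Ico_subset_Icc_self hw)
  have := h.2.2 (fun _ => 0) z contDiff_const (Eventually.of_forall fun y => by simpa using this y)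
  simpa [H0] using this

lemma sub_of_deriv (u u' : ℝ → ℝ) (hu : ∀ y, HasDerivAt u (u' y) y) (hp : Function.Periodic u 1)
    (hb : ∀ y, u' y ^ 2 ≤ 1) : IsSub H0 1 u := by
  refine ⟨continuous_iff_continuousAt.2 fun y => (hu y).continuousAt, hp, fun φ y hφ hm => ?_⟩
  have := hm.hasDerivAt_eq_zero ((hu y).sub ((hφ.differentiable one_ne_zero) y).hasDerivAt)
  have e : deriv φ y = u' y := by linarith
  rw [e, H0]
  nlinarith [hb y, sq_nonneg (u' y)]

lemma c0_eq : c0 H0 = 1 := by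
  refine IsLeast.csInf_eq ⟨⟨fun _ => 0, ?_⟩, fun c ⟨u, hu⟩ => low hu⟩
  exact sub_of_deriv _ (fun _ => 0) (fun y => hasDerivAt_const y 0) (fun _ => rfl) (by simp)

lemma lip {u : ℝ → ℝ} (h : IsSub H0 1 u) (x y : ℝ) : u y - u x ≤ 2 * |y - x| := by
  obtain ⟨z, hz⟩ := exists_max u h.1 h.2.1 x 2 two_pos
  rcases lt_trichotomy z x with hl | he | hl
  · exfalso
    have := h.2.2 (fun w => -2 * w) z (by fun_prop) (by
      filter_upwards [Iio_mem_nhds hl] with w hw
      have := hz w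
      rw [abs_of_neg (sub_neg.2 hw), abs_of_neg (sub_neg.2 hl)] at this
      simp only [Pi.sub_apply]; linarith)
    have d : deriv (fun w : ℝ => -2 * w) z = -2 := by simp
    rw [d, H0] at this; norm_num at this
  · have := hz y
    rw [he] at this; simp at this; linarith
  · exfalso
    have := h.2.2 (fun w => 2 * w) z (by fun_prop) (by
      filter_upwards [Ioi_mem_nhds hl] with w hw
      have := hz w
      rw [abs_of_pos (sub_pos.2 hw), abs_of_pos (sub_pos.2 hl)] at this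
      simp only [Pi.sub_apply]; linarith)
    have d : deriv (fun w : ℝ => 2 * w) z = 2 := by simp
    rw [d, H0] at this; norm_num at this

theorem result :
    ∃ H : ℝ → ℝ → ℝ, Continuous (Function.uncurry H) ∧ (∀ x p, H (x + 1) p = H x p) ∧
      (∀ M : ℝ, ∃ R : ℝ, ∀ x p, R ≤ |p| → M * |p| ≤ H x p) ∧
      IsLeast {c | ∃ u, IsSub H c u} (c0 H) ∧
      (∀ x y, BddAbove {r | ∃ u, IsSub H (c0 H) u ∧ r = u y - u x}) ∧
      ∀ x, ¬ IsSuperAt H (c0 H) (S H x) x := by
  have bdd : ∀ x y, BddAbove {r | ∃ u, IsSub H0 (c0 H0) u ∧ r = u y - u x} := fun x y =>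
    ⟨2 * |y - x|, by rintro r ⟨u, hu, rfl⟩; rw [c0_eq] at hu; exact lip hu x y⟩
  refine ⟨H0, by unfold H0 Function.uncurry; fun_prop, fun _ _ => rfl, fun M => ⟨|M| + 2, fun x p hp => ?_⟩,
    ?_, bdd, fun x hx => ?_⟩
  · rw [H0, ← sq_abs p]
    have h0 := abs_nonneg M
    have h1 : |p| ≤ |p| ^ 2 - 1 := by nlinarith
    have h2 : M ≤ |p| ^ 2 - 1 := by linarith [le_abs_self M]
    rw [sq (|p| ^ 2 - 1)]
    exact mul_le_mul h2 h1 (abs_nonneg _) (by linarith)
  · rw [c0_eq]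
    exact ⟨⟨fun _ => 0, sub_of_deriv _ (fun _ => 0) (fun y => hasDerivAt_const y 0) (fun _ => rfl)
      (by simp)⟩, fun c ⟨u, hu⟩ => low hu⟩
  · have pi := Real.pi_pos
    have d : ∀ y, HasDerivAt (fun y => Real.sin (2 * Real.pi * (y - x)) / (2 * Real.pi))
        (Real.cos (2 * Real.pi * (y - x))) y := fun y =>
      (((((hasDerivAt_id y).sub_const x).const_mul (2 * Real.pi)).sin).div_const
        (2 * Real.pi)).congr_deriv (by simp)
    have hs := sub_of_deriv _ _ d (fun y => by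
      rw [show 2 * Real.pi * (y + 1 - x) = 2 * Real.pi * (y - x) + 2 * Real.pi by ring,
        Real.sin_add_two_pi]) (fun y => Real.cos_sq_le_one _)
    rw [← c0_eq] at hs
    have s0 : S H0 x x = 0 := by
      refine IsGreatest.csSup_eq ⟨⟨_, hs, by simp⟩, ?_⟩
      rintro r ⟨u, -, rfl⟩; simp
    have := hx (fun y => Real.sin (2 * Real.pi * (y - x)) / (2 * Real.pi)) (by fun_prop)
      (Eventually.of_forall fun y => by
        have := le_csSup (bdd x y) ⟨_, hs, rfl⟩
        simp only [Pi.sub_apply, s0]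
        unfold S
        simp at this ⊢
        linarith)
    rw [(d x).deriv, c0_eq, H0] at this
    norm_num at this

end Pool.Agent.Results.MP_12cf7c_an.Counterexample
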